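import Pool.Agent.W795.DD.Stm2
import Pool.Agent.W785.DF.Alg

/-!
# Project DD: adding a mode and a wave keeps the bounds
-/

set_option autoImplicit false

open MeasureTheory Set
open scoped ContDiff InnerProductSpace ENNReal

namespace Pool.Agent.W154.DD.Step

open H459R3.NS (V K3 Per pd fr ee cube)
open Pool.Agent.W785.DF (E3 dk kv cj Pk Nl Fld Fr TP tp frv Herm IsAdmissible)
open Pool.Agent.W795.DD

theorem ab_nonneg (k : K3) : 0 ≤ ab k := Real.sqrt_nonneg _

theorem one_le_ab {k : K3} (hk : k ≠ 0) : 1 ≤ ab k := by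
  unfold ab
  rw [Real.one_le_sqrt]
  exact Pool.Agent.W785.DF.one_le_sq hk

theorem A_nonneg (m : ℕ) (S : Finset K3) (a : K3 → E3) : 0 ≤ A m S a :=
  Finset.sum_nonneg fun k _ => mul_nonneg (pow_nonneg (ab_nonneg k) _) (norm_nonneg _)

theorem An_nonneg (S : Finset K3) (a : K3 → E3) : 0 ≤ An S a :=
  Finset.sum_nonneg fun k _ => div_nonneg (norm_nonneg _) (ab_nonneg k)

theorem A_cont (m : ℕ) (S : Finset K3) {f : ℝ → K3 → E3} {I : Set ℝ}
    (hf : ∀ k, ContinuousOn (fun t => f t k) I) : ContinuousOn (fun t => A m S (f t)) I := by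
  unfold A
  exact continuousOn_finsetSum _ fun k _ => continuousOn_const.mul (hf k).norm

theorem An_cont (S : Finset K3) {f : ℝ → K3 → E3} {I : Set ℝ}
    (hf : ∀ k, ContinuousOn (fun t => f t k) I) : ContinuousOn (fun t => An S (f t)) I := by
  unfold An
  exact continuousOn_finsetSum _ fun k _ => (hf k).norm.div_const _

theorem A_le3 (m : ℕ) (S : Finset K3) (a b c d : K3 → E3) (h : ∀ k, a k = b k + c k + d k) :
    A m S a ≤ A m S b + A m S c + A m S d := by
  unfold A
  rw [← Finset.sum_add_distrib, ← Finset.sum_add_distrib]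
  refine Finset.sum_le_sum fun k _ => ?_
  rw [h k, ← mul_add, ← mul_add]
  refine mul_le_mul_of_nonneg_left ?_ (pow_nonneg (ab_nonneg k) _)
  exact (norm_add_le _ _).trans (add_le_add (norm_add_le _ _) le_rfl)

theorem A_le2 (m : ℕ) (S : Finset K3) (a b c : K3 → E3) (h : ∀ k, a k = b k + c k) :
    A m S a ≤ A m S b + A m S c := by
  unfold A
  rw [← Finset.sum_add_distrib]
  refine Finset.sum_le_sum fun k _ => ?_
  rw [h k, ← mul_add]
  exact mul_le_mul_of_nonneg_left (norm_add_le _ _) (pow_nonneg (ab_nonneg k) _)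

theorem A_sq_le {S : Finset K3} (hS : Fr S) (v : K3 → E3) : A 0 S v ^ 2 ≤ An S v * A 1 S v := by
  unfold A An
  apply Finset.sum_sq_le_sum_mul_sum_of_sq_le_mul
  · intro k _
    exact div_nonneg (norm_nonneg _) (ab_nonneg k)
  · intro k _
    exact mul_nonneg (pow_nonneg (ab_nonneg k) _) (norm_nonneg _)
  · intro k hk
    have h : ab k ≠ 0 := (lt_of_lt_of_le one_pos (one_le_ab (Pool.Agent.W785.DF.Fr.ne hS hk))).ne'
    rw [pow_zero, pow_one, one_mul]
    apply le_of_eq
    field_simp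

theorem A_ext (m : ℕ) {F S : Finset K3} (h : F ⊆ S) {b : K3 → E3} (hb : ∀ k, k ∉ F → b k = 0) :
    A m S b = A m F b := by
  unfold A
  symm
  apply Finset.sum_subset h
  intro k _ hk
  rw [hb k hk]
  simp

theorem dk_cont (k : K3) : Continuous (dk k) := by
  have h : dk k = fun v => ⟪kv k, v⟫_ℂ := by
    funext v
    exact Pool.Agent.W785.DF.dk_eq_inner k v
  rw [h]
  exact continuous_const.inner continuous_id

theorem Pk_cont (k : K3) : Continuous (Pk k) := by
  unfold Pk
  have := dk_cont k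
  fun_prop

theorem Pk_add (k : K3) (v w : E3) : Pk k (v + w) = Pk k v + Pk k w := by
  unfold Pk
  rw [Pool.Agent.W785.DF.dk_add, add_div, add_smul]
  abel

theorem Bl_cont (S : Finset K3) {a b : ℝ → K3 → E3} {I : Set ℝ}
    (ha : ∀ k, ContinuousOn (fun t => a t k) I) (hb : ∀ k, ContinuousOn (fun t => b t k) I)
    (k : K3) : ContinuousOn (fun t => Bl S (a t) (b t) k) I := by
  unfold Bl
  refine continuousOn_finsetSum _ fun l _ => ?_
  exact (continuousOn_const.mul ((dk_cont _).comp_continuousOn (ha l))).smul (hb _)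

theorem int_exp {β : ℝ} (hβ : 0 < β) (a b : ℝ) :
    ∫ t in a..b, Real.exp (-(β * t)) = (Real.exp (-(β * a)) - Real.exp (-(β * b))) / β := by
  have h : ∀ t ∈ uIcc a b, HasDerivAt (fun t => -(Real.exp (-(β * t)) / β))
      (Real.exp (-(β * t))) t := by
    intro t _
    have h1 : HasDerivAt (fun t : ℝ => -(β * t)) (-β) t := by
      have h0 := ((hasDerivAt_id' t).const_mul β).neg
      rw [mul_one] at h0
      exact h0
    have h2 := (h1.exp.div_const β).neg
    have h3 : -(Real.exp (-(β * t)) * -β / β) = Real.exp (-(β * t)) := by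
      field_simp
    rw [h3] at h2
    exact h2
  rw [intervalIntegral.integral_eq_sub_of_hasDerivAt h
    ((by fun_prop : Continuous fun t : ℝ => Real.exp (-(β * t))).intervalIntegrable _ _)]
  ring

theorem int_exp_le {β : ℝ} (hβ : 0 < β) (a b : ℝ) :
    ∫ t in a..b, Real.exp (-(β * t)) ≤ Real.exp (-(β * a)) / β := by
  rw [int_exp hβ]
  apply div_le_div_of_nonneg_right _ hβ.le
  linarith [Real.exp_pos (-(β * b))]

theorem proof (hex : S_ex) (hpert : S_pert) (hprop : S_prop) (hwave : S_wave) (hpw : S_pw) :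
    S_step := by
  intro ν hν μ p hμ hp hμp
  obtain ⟨C1, hC1, hW⟩ := hwave ν hν μ p hμ hp hμp
  refine ⟨C1, hC1, ?_⟩
  intro z θ hθ F0 b0 K ρ ρ' hF0 hb0 hBd hρ N1
  obtain ⟨C, κ, hC, hκ, N0, hN0, hW⟩ := hW z
  obtain ⟨C0, hC0, hC0'⟩ := hprop.1 0
  obtain ⟨-, -, -, -, hBl, hPk, hBl4⟩ := hpw
  have hπ := Real.pi_pos
  -- constants
  set K0 : ℝ := A 0 F0 b0 * Real.exp (C0 / ν * K) with hK0
  have hK0n : 0 ≤ K0 := mul_nonneg (A_nonneg _ _ _) (Real.exp_pos _).le
  set D : ℝ := Real.exp (2 / ν * (2 * K + C ^ 2 / κ)) *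
    (C + (4 * Real.pi * K0 + 1) * C / κ) with hD
  have hD0 : 0 < D := by positivity
  -- the choice of `N`
  obtain ⟨N2, hN2⟩ := exists_nat_gt (2 * D / (Real.pi * ν))
  obtain ⟨N3, hN3⟩ := exists_nat_gt ((C / (κ ^ 2 * θ) + D / (Real.pi ^ 2 * ν)) / (ρ' - ρ))
  set N : ℕ := max (max N0 N1) (max N2 N3) with hN
  have hNN0 : N0 ≤ N := (le_max_left _ _).trans (le_max_left _ _)
  have hNN1 : N1 ≤ N := (le_max_right _ _).trans (le_max_left _ _)
  have hNN2 : N2 ≤ N := (le_max_left _ _).trans (le_max_right _ _)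
  have hNN3 : N3 ≤ N := (le_max_right _ _).trans (le_max_right _ _)
  have hN1' : (1 : ℝ) ≤ N := by
    have : 1 ≤ N := le_trans hN0 hNN0
    exact_mod_cast this
  have hNp : (0 : ℝ) < N := by linarith
  have hNsq : (N : ℝ) ≤ (N : ℝ) ^ 2 := by nlinarith
  have hδ : D / N < Real.pi * ν / 2 := by
    rw [div_lt_iff₀ (by positivity)] at hN2
    have h1 : (N2 : ℝ) ≤ N := by exact_mod_cast hNN2
    have h2 : (N2 : ℝ) * (Real.pi * ν) ≤ N * (Real.pi * ν) :=
      mul_le_mul_of_nonneg_right h1 (by positivity)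
    rw [div_lt_iff₀ hNp]
    linarith
  have hρρ : 0 < ρ' - ρ := by linarith
  have hN3' : C / (κ ^ 2 * θ) + D / (Real.pi ^ 2 * ν) ≤ (ρ' - ρ) * N := by
    rw [div_lt_iff₀ hρρ] at hN3
    have h1 : (N3 : ℝ) ≤ N := by exact_mod_cast hNN3
    have h2 : (N3 : ℝ) * (ρ' - ρ) ≤ N * (ρ' - ρ) := mul_le_mul_of_nonneg_right h1 hρρ.le
    linarith
  obtain ⟨F, w0, hF, hw0, hFc, hFN, hw0b, hr⟩ := hW N hNN0
  refine ⟨F, w0, 3 * (K + C ^ 2 / (2 * κ) + (D / N) * (D / N / (Real.pi ^ 2 * ν))), hF, hw0, hFc,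
    fun k hk => le_trans (by exact_mod_cast hNN1) (hFN k hk), hw0b, ?_⟩
  intro S hS hsub T hT y hy
  have hF0S : F0 ⊆ S := fun k hk => hsub (Finset.mem_union_left _ hk)
  have hFS : F ⊆ S := fun k hk => hsub (Finset.mem_union_right _ (Finset.mem_union_right _ hk))
  have hμS : μ ∈ S := hsub (Finset.mem_union_right _ (Finset.mem_union_left _ (by simp)))
  have hb0S : Fld S b0 := ⟨fun k hk => hb0.supp k fun h => hk (hF0S h), hb0.sym, hb0.div⟩
  obtain ⟨x, hx⟩ := hex S hS ν T hν hT b0 hb0S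
  obtain ⟨r, e, hrF, hrC, heC, hrO, hr0, hrB⟩ := hr S hS hFS hμS
  have hT' : uIcc 0 T = Icc 0 T := uIcc_of_le hT.le
  -- continuity
  have cx : ∀ k, ContinuousOn (fun t => x t k) (Icc 0 T) := fun k => (hx.smooth k).continuousOn
  have cy : ∀ k, ContinuousOn (fun t => y t k) (Icc 0 T) := fun k => (hy.smooth k).continuousOn
  have cr : ∀ k, ContinuousOn (fun t => r t k) (Icc 0 T) := fun k =>
    (hrC k).continuous.continuousOn
  have ce : ∀ k, ContinuousOn (fun t => e t k) (Icc 0 T) := fun k => (heC k).continuousOn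
  set v : ℝ → K3 → E3 := fun t => y t - (x t + r t) with hv
  have cv : ∀ k, ContinuousOn (fun t => v t k) (Icc 0 T) := fun k =>
    (cy k).sub ((cx k).add (cr k))
  have ca : ∀ k, ContinuousOn (fun t => (x t + r t) k) (Icc 0 T) := fun k => (cx k).add (cr k)
  set e1 : ℝ → K3 → E3 := fun t k =>
    -(Pk k (Bl S (x t) (r t) k + Bl S (r t) (x t) k)) - e t k with he1
  have ce1 : ∀ k, ContinuousOn (fun t => e1 t k) (Icc 0 T) := fun k =>
    (((Pk_cont k).comp_continuousOn ((Bl_cont S cx cr k).add (Bl_cont S cr cx k))).neg).sub (ce k)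
  have ii : ∀ {f : ℝ → ℝ}, ContinuousOn f (Icc 0 T) → IntervalIntegrable f volume 0 T := by
    intro f hf
    exact (hT' ▸ hf : ContinuousOn f (uIcc 0 T)).intervalIntegrable
  -- bounds for `x`
  have bx := hBd S hS hF0S T hT x hx
  have cA : ∀ (m : ℕ) {f : ℝ → K3 → E3}, (∀ k, ContinuousOn (fun t => f t k) (Icc 0 T)) →
      ContinuousOn (fun t => A m S (f t)) (Icc 0 T) := fun m f hf => A_cont m S hf
  have hxA : ∀ t ∈ Icc 0 T, A 0 S (x t) ≤ K0 := by
    intro t ht
    refine (hC0' S hS ν T hν hT b0 x hx t ht).trans ?_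
    rw [A_ext 0 hF0S hb0.supp]
    apply mul_le_mul_of_nonneg_left _ (A_nonneg _ _ _)
    apply Real.exp_le_exp.2
    apply mul_le_mul_of_nonneg_left _ (by positivity)
    refine le_trans ?_ bx.1
    have hsq : ContinuousOn (fun t => A 0 S (x t) ^ 2) (Icc 0 T) := (cA 0 cx).pow 2
    apply intervalIntegral.integral_mono_interval le_rfl ht.1 ht.2
    · exact Filter.Eventually.of_forall fun s => sq_nonneg _
    · exact ii hsq
  -- bounds for `r`
  set β : ℝ := κ * (N : ℝ) ^ 2 with hβ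
  have hβ0 : 0 < β := by positivity
  have hrB' : ∀ t ∈ Icc 0 T, A 0 S (r t) ≤ C * N * Real.exp (-(β * t)) ∧
      A 1 S (r t) ≤ C * N ^ 2 * Real.exp (-(β * t)) ∧
      An S (e t) ≤ C * N * Real.exp (-(β * t)) := fun t ht => hrB t ht.1
  have cexp : ∀ c : ℝ, Continuous fun t : ℝ => c * Real.exp (-(β * t)) := fun c => by fun_prop
  have ir2 : (∫ s in (0 : ℝ)..T, A 0 S (r s) ^ 2) ≤ C ^ 2 / (2 * κ) := by
    have hc2 : Continuous fun t : ℝ => (C * N) ^ 2 * Real.exp (-((2 * β) * t)) := by fun_prop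
    calc (∫ s in (0 : ℝ)..T, A 0 S (r s) ^ 2)
        ≤ ∫ s in (0 : ℝ)..T, (C * N) ^ 2 * Real.exp (-((2 * β) * s)) := by
          apply intervalIntegral.integral_mono_on hT.le (ii ((cA 0 cr).pow 2))
            (hc2.intervalIntegrable _ _)
          intro s hs
          have h1 := pow_le_pow_left₀ (A_nonneg 0 S (r s)) (hrB' s hs).1 2
          refine h1.trans (le_of_eq ?_)
          rw [mul_pow, ← Real.exp_nat_mul]
          congr 2
          push_cast
          ring
      _ = (C * N) ^ 2 * ∫ s in (0 : ℝ)..T, Real.exp (-((2 * β) * s)) :=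
          intervalIntegral.integral_const_mul _ _
      _ ≤ (C * N) ^ 2 * (Real.exp (-((2 * β) * 0)) / (2 * β)) :=
          mul_le_mul_of_nonneg_left (int_exp_le (by positivity) _ _) (by positivity)
      _ = C ^ 2 / (2 * κ) := by
          rw [mul_zero, neg_zero, Real.exp_zero, hβ]
          field_simp
  -- explicit forms of some continuous functions
  have q2 : ∀ (c : ℝ) {f : ℝ → K3 → E3}, (∀ k, ContinuousOn (fun t => f t k) (Icc 0 T)) →
      ContinuousOn (fun t => c * A 0 S (f t) ^ 2) (Icc 0 T) := fun c f hf =>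
    continuousOn_const.mul ((cA 0 hf).pow 2)
  -- the integral of `A 0 (x + r) ^ 2`
  have ia : (∫ s in (0 : ℝ)..T, A 0 S (x s + r s) ^ 2) ≤ 2 * K + C ^ 2 / κ := by
    calc (∫ s in (0 : ℝ)..T, A 0 S (x s + r s) ^ 2)
        ≤ ∫ s in (0 : ℝ)..T, (2 * A 0 S (x s) ^ 2 + 2 * A 0 S (r s) ^ 2) := by
          have i1 : IntervalIntegrable (fun s => A 0 S (x s + r s) ^ 2) volume 0 T :=
            ii ((cA 0 ca).pow 2)
          have i2 : IntervalIntegrable (fun s => 2 * A 0 S (x s) ^ 2 + 2 * A 0 S (r s) ^ 2)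
            volume 0 T := (ii (q2 2 cx)).add (ii (q2 2 cr))
          apply intervalIntegral.integral_mono_on hT.le i1 i2
          intro s hs
          have h1 := A_le2 0 S (x s + r s) (x s) (r s) (fun k => rfl)
          have h2 := pow_le_pow_left₀ (A_nonneg 0 S (x s + r s)) h1 2
          nlinarith [sq_nonneg (A 0 S (x s) - A 0 S (r s))]
      _ = 2 * (∫ s in (0 : ℝ)..T, A 0 S (x s) ^ 2) + 2 * ∫ s in (0 : ℝ)..T, A 0 S (r s) ^ 2 := by
          rw [intervalIntegral.integral_add (ii (q2 2 cx)) (ii (q2 2 cr)),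
            intervalIntegral.integral_const_mul, intervalIntegral.integral_const_mul]
      _ ≤ 2 * K + 2 * (C ^ 2 / (2 * κ)) := by linarith [bx.1]
      _ = 2 * K + C ^ 2 / κ := by field_simp
  -- the error terms
  have he1b : ∀ t ∈ Icc 0 T, An S (e1 t) ≤ (4 * Real.pi * K0 + 1) * (C * N) *
      Real.exp (-(β * t)) := by
    intro t ht
    have h1 : An S (e1 t) ≤ An S (Bl S (x t) (r t)) + An S (Bl S (r t) (x t)) + An S (e t) := by
      unfold An
      rw [← Finset.sum_add_distrib, ← Finset.sum_add_distrib]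
      refine Finset.sum_le_sum fun k _ => ?_
      rw [← add_div, ← add_div]
      apply div_le_div_of_nonneg_right _ (ab_nonneg k)
      simp only [he1]
      refine (norm_sub_le _ _).trans (add_le_add ?_ le_rfl)
      rw [norm_neg]
      exact (hPk k _).trans (norm_add_le _ _)
    have h2 := hBl S hS (x t) (r t) (hx.fld t ht) (hrF t)
    have h3 := hBl S hS (r t) (x t) (hrF t) (hx.fld t ht)
    have h4 := hxA t ht
    obtain ⟨h5, -, h6⟩ := hrB' t ht
    have h7 : A 0 S (x t) * A 0 S (r t) ≤ K0 * (C * N * Real.exp (-(β * t))) :=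
      mul_le_mul h4 h5 (A_nonneg _ _ _) hK0n
    have h8 := mul_le_mul_of_nonneg_left h7 (show 0 ≤ 4 * Real.pi by positivity)
    linarith
  have ie1 : (∫ s in (0 : ℝ)..T, An S (e1 s)) ≤ (4 * Real.pi * K0 + 1) * C / κ / N := by
    calc (∫ s in (0 : ℝ)..T, An S (e1 s))
        ≤ ∫ s in (0 : ℝ)..T, (4 * Real.pi * K0 + 1) * (C * N) * Real.exp (-(β * s)) :=
          intervalIntegral.integral_mono_on hT.le (ii (An_cont S ce1))
            ((cexp _).intervalIntegrable _ _) he1b
      _ = (4 * Real.pi * K0 + 1) * (C * N) * ∫ s in (0 : ℝ)..T, Real.exp (-(β * s)) :=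
          intervalIntegral.integral_const_mul _ _
      _ ≤ (4 * Real.pi * K0 + 1) * (C * N) * (Real.exp (-(β * 0)) / β) :=
          mul_le_mul_of_nonneg_left (int_exp_le hβ0 _ _) (by positivity)
      _ = (4 * Real.pi * K0 + 1) * C / κ / N := by
          rw [mul_zero, neg_zero, Real.exp_zero, hβ]
          field_simp
  -- the initial value
  have hv0 : An S (v 0) ≤ C / N := by
    refine le_trans (le_of_eq ?_) hr0
    unfold An
    refine Finset.sum_congr rfl fun k _ => ?_
    congr 1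
    rw [← norm_neg]
    congr 1
    simp only [hv, hy.init, hx.init, Pi.sub_apply, Pi.add_apply]
    abel
  -- the perturbation estimate
  have hfa : ∀ t ∈ Icc 0 T, Fld S (x t + r t) := by
    intro t ht
    have h1 := hx.fld t ht
    have h2 := hrF t
    refine ⟨?_, ?_, ?_⟩
    · intro k hk
      rw [Pi.add_apply, h1.supp k hk, h2.supp k hk, add_zero]
    · intro k
      rw [Pi.add_apply, Pi.add_apply, h1.sym, h2.sym, Pool.Agent.W785.DF.cj_add]
    · intro k
      rw [Pi.add_apply, Pool.Agent.W785.DF.dk_add, h1.div, h2.div, add_zero]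
  have hfv : ∀ t ∈ Icc 0 T, Fld S (v t) := by
    intro t ht
    have h1 := hfa t ht
    have h2 := hy.fld t ht
    refine ⟨?_, ?_, ?_⟩
    · intro k hk
      simp only [hv]
      rw [Pi.sub_apply, h1.supp k hk, h2.supp k hk, sub_zero]
    · intro k
      simp only [hv]
      rw [Pi.sub_apply, Pi.sub_apply, h1.sym, h2.sym, Pool.Agent.W785.DF.cj_sub]
    · intro k
      simp only [hv]
      rw [Pi.sub_apply, Pool.Agent.W785.DF.dk_sub, h1.div, h2.div, sub_zero]
  have hode : ∀ t ∈ Icc 0 T, ∀ k ∈ S, HasDerivWithinAt (fun s => v s k)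
      (-(lam ν k • v t k) - Pk k (Bl S (x t + r t) (v t) k + Bl S (v t) (x t + r t) k
        + Bl S (v t) (v t) k) + e1 t k) (Icc 0 T) t := by
    intro t ht k hk
    have h1 := (hy.ode t ht k hk).sub ((hx.ode t ht k hk).add (hrO t k hk).hasDerivWithinAt)
    have h2 : y t = (x t + r t) + v t := by simp [hv]
    have h3 : Nl S (y t) k = Bl S (x t) (x t) k + Bl S (x t) (r t) k + Bl S (r t) (x t) k
        + Bl S (r t) (r t) k + Bl S (x t + r t) (v t) k + Bl S (v t) (x t + r t) k
        + Bl S (v t) (v t) k := by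
      rw [Nl_eq]
      conv_lhs => rw [h2]
      rw [hBl4, hBl4]
    have h4 : v t k = y t k - (x t k + r t k) := rfl
    have h5 : -(lam ν k • v t k) - Pk k (Bl S (x t + r t) (v t) k + Bl S (v t) (x t + r t) k
        + Bl S (v t) (v t) k) + e1 t k =
        (-(lam ν k • y t k) - Pk k (Nl S (y t) k)) -
        ((-(lam ν k • x t k) - Pk k (Nl S (x t) k)) +
          (-(lam ν k • r t k) - Pk k (Nl S (r t) k) + e t k)) := by
      rw [h3, Nl_eq, Nl_eq, h4]
      simp only [he1, Pk_add, smul_sub, smul_add]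
      abel
    rw [h5]
    exact h1
  have hmain := hpert S hS ν T (D / N) hν hT hδ (fun t => x t + r t) v e1 hfa hfv ca ce1 hode (by
    have h1 : 2 / ν * (∫ s in (0 : ℝ)..T, A 0 S (x s + r s) ^ 2)
        ≤ 2 / ν * (2 * K + C ^ 2 / κ) := mul_le_mul_of_nonneg_left ia (by positivity)
    have h2 : An S (v 0) + ∫ s in (0 : ℝ)..T, An S (e1 s)
        ≤ (C + (4 * Real.pi * K0 + 1) * C / κ) / N := by
      rw [add_div]
      exact add_le_add hv0 ie1
    have h3 : 0 ≤ An S (v 0) + ∫ s in (0 : ℝ)..T, An S (e1 s) :=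
      add_nonneg (An_nonneg _ _)
        (intervalIntegral.integral_nonneg hT.le fun s _ => An_nonneg _ _)
    calc Real.exp (2 / ν * ∫ s in (0 : ℝ)..T, A 0 S (x s + r s) ^ 2)
          * (An S (v 0) + ∫ s in (0 : ℝ)..T, An S (e1 s))
        ≤ Real.exp (2 / ν * (2 * K + C ^ 2 / κ)) *
          ((C + (4 * Real.pi * K0 + 1) * C / κ) / N) :=
          mul_le_mul (Real.exp_le_exp.2 h1) h2 h3 (Real.exp_pos _).le
      _ = D / N := by rw [hD]; ring)
  obtain ⟨hvA, hvI⟩ := hmain
  have hDN : 0 ≤ D / N := by positivity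
  -- `A 0 v ^ 2`
  have iv2 : (∫ s in (0 : ℝ)..T, A 0 S (v s) ^ 2) ≤ (D / N) * (D / N / (Real.pi ^ 2 * ν)) := by
    calc (∫ s in (0 : ℝ)..T, A 0 S (v s) ^ 2) ≤ ∫ s in (0 : ℝ)..T, (D / N) * A 1 S (v s) := by
          have i1 : IntervalIntegrable (fun s => A 0 S (v s) ^ 2) volume 0 T :=
            ii ((cA 0 cv).pow 2)
          have i2 : IntervalIntegrable (fun s => (D / N) * A 1 S (v s)) volume 0 T :=
            ii (continuousOn_const.mul (cA 1 cv))
          apply intervalIntegral.integral_mono_on hT.le i1 i2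
          intro s hs
          exact (A_sq_le hS (v s)).trans (mul_le_mul_of_nonneg_right (hvA s hs) (A_nonneg _ _ _))
      _ = (D / N) * ∫ s in (0 : ℝ)..T, A 1 S (v s) := intervalIntegral.integral_const_mul _ _
      _ ≤ _ := mul_le_mul_of_nonneg_left hvI hDN
  have hyd : ∀ s k, y s k = x s k + r s k + v s k := by
    intro s k
    simp only [hv, Pi.sub_apply, Pi.add_apply]
    abel
  refine ⟨?_, ?_⟩
  · calc (∫ s in (0 : ℝ)..T, A 0 S (y s) ^ 2)
        ≤ ∫ s in (0 : ℝ)..T, (3 * A 0 S (x s) ^ 2 + 3 * A 0 S (r s) ^ 2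
            + 3 * A 0 S (v s) ^ 2) := by
          have i1 : IntervalIntegrable (fun s => A 0 S (y s) ^ 2) volume 0 T :=
            ii ((cA 0 cy).pow 2)
          have i2 : IntervalIntegrable (fun s => 3 * A 0 S (x s) ^ 2 + 3 * A 0 S (r s) ^ 2
            + 3 * A 0 S (v s) ^ 2) volume 0 T :=
            ((ii (q2 3 cx)).add (ii (q2 3 cr))).add (ii (q2 3 cv))
          apply intervalIntegral.integral_mono_on hT.le i1 i2
          intro s hs
          have h1 := A_le3 0 S (y s) (x s) (r s) (v s) (hyd s)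
          have h2 := pow_le_pow_left₀ (A_nonneg 0 S (y s)) h1 2
          nlinarith [sq_nonneg (A 0 S (x s) - A 0 S (r s)), sq_nonneg (A 0 S (x s) - A 0 S (v s)),
            sq_nonneg (A 0 S (r s) - A 0 S (v s))]
      _ = 3 * (∫ s in (0 : ℝ)..T, A 0 S (x s) ^ 2) + 3 * (∫ s in (0 : ℝ)..T, A 0 S (r s) ^ 2)
            + 3 * ∫ s in (0 : ℝ)..T, A 0 S (v s) ^ 2 := by
          have i2 : IntervalIntegrable (fun s => 3 * A 0 S (x s) ^ 2 + 3 * A 0 S (r s) ^ 2)
            volume 0 T := (ii (q2 3 cx)).add (ii (q2 3 cr))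
          rw [intervalIntegral.integral_add i2 (ii (q2 3 cv)),
            intervalIntegral.integral_add (ii (q2 3 cx)) (ii (q2 3 cr)),
            intervalIntegral.integral_const_mul, intervalIntegral.integral_const_mul,
            intervalIntegral.integral_const_mul]
      _ ≤ _ := by linarith [bx.1]
  · intro hθT
    have hθ' : θ ∈ Icc 0 T := ⟨hθ.le, hθT⟩
    have iiθ : ∀ {f : ℝ → ℝ}, ContinuousOn f (Icc 0 T) → IntervalIntegrable f volume θ T := by
      intro f hf
      apply ContinuousOn.intervalIntegrable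
      rw [uIcc_of_le hθT]
      exact hf.mono (Icc_subset_Icc hθ.le le_rfl)
    have h1 : (∫ s in θ..T, A 1 S (r s)) ≤ C / (κ ^ 2 * θ) / N := by
      calc (∫ s in θ..T, A 1 S (r s)) ≤ ∫ s in θ..T, C * N ^ 2 * Real.exp (-(β * s)) := by
            apply intervalIntegral.integral_mono_on hθT (iiθ (cA 1 cr))
              ((cexp _).intervalIntegrable _ _)
            intro s hs
            exact (hrB' s ⟨hθ.le.trans hs.1, hs.2⟩).2.1
        _ = C * N ^ 2 * ∫ s in θ..T, Real.exp (-(β * s)) :=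
            intervalIntegral.integral_const_mul _ _
        _ ≤ C * N ^ 2 * (Real.exp (-(β * θ)) / β) :=
            mul_le_mul_of_nonneg_left (int_exp_le hβ0 _ _) (by positivity)
        _ ≤ C * N ^ 2 * ((1 / (β * θ)) / β) := by
            apply mul_le_mul_of_nonneg_left _ (by positivity)
            apply div_le_div_of_nonneg_right _ hβ0.le
            rw [Real.exp_neg, ← one_div]
            apply one_div_le_one_div_of_le (by positivity)
            linarith [Real.add_one_le_exp (β * θ)]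
        _ = C / (κ ^ 2 * θ) / (N : ℝ) ^ 2 := by
            rw [hβ]
            field_simp
        _ ≤ C / (κ ^ 2 * θ) / N := div_le_div_of_nonneg_left (by positivity) hNp hNsq
    have h2 : (∫ s in θ..T, A 1 S (v s)) ≤ D / N / (Real.pi ^ 2 * ν) := by
      refine le_trans ?_ hvI
      apply intervalIntegral.integral_mono_interval hθ.le hθT le_rfl
      · exact Filter.Eventually.of_forall fun s => A_nonneg _ _ _
      · exact ii (cA 1 cv)
    have h3 : (∫ s in θ..T, A 1 S (y s)) ≤ (∫ s in θ..T, A 1 S (x s)) + (∫ s in θ..T, A 1 S (r s))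
        + ∫ s in θ..T, A 1 S (v s) := by
      have i2 : IntervalIntegrable (fun s => A 1 S (x s) + A 1 S (r s)) volume θ T :=
        (iiθ (cA 1 cx)).add (iiθ (cA 1 cr))
      have i3 : IntervalIntegrable (fun s => A 1 S (x s) + A 1 S (r s) + A 1 S (v s))
        volume θ T := i2.add (iiθ (cA 1 cv))
      rw [← intervalIntegral.integral_add (iiθ (cA 1 cx)) (iiθ (cA 1 cr)),
        ← intervalIntegral.integral_add i2 (iiθ (cA 1 cv))]
      apply intervalIntegral.integral_mono_on hθT (iiθ (cA 1 cy)) i3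
      intro s hs
      exact A_le3 1 S (y s) (x s) (r s) (v s) (hyd s)
    have h4 := bx.2 hθT
    have h5 : C / (κ ^ 2 * θ) / N + D / N / (Real.pi ^ 2 * ν) ≤ ρ' - ρ := by
      have : C / (κ ^ 2 * θ) / N + D / N / (Real.pi ^ 2 * ν) =
          (C / (κ ^ 2 * θ) + D / (Real.pi ^ 2 * ν)) / N := by
        field_simp
      rw [this, div_le_iff₀ hNp]
      exact hN3'
    linarith

end Pool.Agent.W154.DD.Step
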